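import Pool.Agent.Helper45.SP.GoalsF

open Complex Metric Set Filter Topology
open scoped ContDiff ComplexConjugate

namespace Pool.Agent.Helper48.SP

open Pool.Agent.Helper95.Lin Pool.Agent.Helper10.SP Pool.Agent.Helper45.SP

lemma bdd_unif {b : ℕ} {z₀ : Cn b} {r ρ : ℝ} (hρ : ρ < r) {V : Cn b → Cn b}
    (hV : DifferentiableOn ℂ V (ball z₀ r)) :
    (∃ B : ℝ, 0 ≤ B ∧ ∀ z ∈ ball z₀ ρ, ‖V z‖ ≤ B) ∧
    ∀ ε > 0, ∃ δ > 0, ∀ z ∈ ball z₀ ρ, ∀ w ∈ ball z₀ ρ, ‖z - w‖ ≤ δ → ‖V z - V w‖ ≤ ε := by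
  have hsub : closedBall z₀ ρ ⊆ ball z₀ r := closedBall_subset_ball hρ
  have hK : IsCompact (closedBall z₀ ρ) := isCompact_closedBall z₀ ρ
  have hc : ContinuousOn V (closedBall z₀ ρ) := hV.continuousOn.mono hsub
  constructor
  · obtain ⟨B, hB⟩ := hK.exists_bound_of_continuousOn hc
    exact ⟨max B 0, le_max_right _ _, fun z hz =>
      (hB z (ball_subset_closedBall hz)).trans (le_max_left _ _)⟩
  · intro ε hε
    have hu : UniformContinuousOn V (closedBall z₀ ρ) := hK.uniformContinuousOn_of_continuous hc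
    rw [Metric.uniformContinuousOn_iff] at hu
    obtain ⟨δ, hδ, h⟩ := hu ε hε
    refine ⟨δ / 2, by positivity, fun z hz w hw hzw => ?_⟩
    have := h z (ball_subset_closedBall hz) w (ball_subset_closedBall hw)
      (by rw [dist_eq_norm]; linarith)
    rw [dist_eq_norm] at this
    exact this.le

lemma inLL_zero {b : ℕ} {z₀ : Cn b} {r : ℝ} {A : Set (Tri b)} (hA : LGrp z₀ r A) :
    InLL z₀ r A (fun _ => 0) := by
  refine ⟨differentiableOn_const _, fun _ _ => rfl, fun ρ hρ ε hε => ⟨1, one_pos, ?_⟩⟩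
  intro σ hσ _
  obtain ⟨t, ht, hone⟩ := hA.one
  refine ⟨t, ht, fun z hz => ?_⟩
  have h1 : t.g z = z := (hone z (ball_subset_ball hρ.le hz)).1
  rw [h1]
  simp
  positivity

lemma inLL_add (hM : S_LMUL) {b : ℕ} {z₀ : Cn b} {r : ℝ} {A : Set (Tri b)} (hA : LGrp z₀ r A)
    {V W : Cn b → Cn b} (hV : InLL z₀ r A V) (hW : InLL z₀ r A W) : InLL z₀ r A (V + W) := by
  refine ⟨hV.1.add hW.1, fun z hz => by simp [hV.2.1 z hz, hW.2.1 z hz], fun ρ hρ ε hε => ?_⟩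
  have hr := hA.pos
  obtain ⟨ρ₁, hρ₁, hρ₁r⟩ := exists_between (max_lt hρ (half_lt_self hr))
  have h1 : ρ < ρ₁ := lt_of_le_of_lt (le_max_left _ _) hρ₁
  have h2 : r / 2 < ρ₁ := lt_of_le_of_lt (le_max_right _ _) hρ₁
  obtain ⟨η, hη, hmul⟩ := hM hA ρ hρ 1 one_pos
  obtain ⟨⟨B, hB0, hB⟩, hVu⟩ := bdd_unif hρ₁r hV.1
  obtain ⟨⟨B', hB'0, hB'⟩, -⟩ := bdd_unif hρ₁r hW.1
  obtain ⟨δ, hδ, hVδ⟩ := hVu (ε / 3) (by positivity)
  obtain ⟨σ₁, hσ₁, hV1⟩ := hV.2.2 ρ₁ hρ₁r (ε / 3) (by positivity)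
  obtain ⟨σ₂, hσ₂, hW1⟩ := hW.2.2 ρ₁ hρ₁r (ε / 3) (by positivity)
  set M : ℝ := min η (min δ (ρ₁ - ρ)) with hMdef
  have hM0 : 0 < M := lt_min hη (lt_min hδ (by linarith))
  set C : ℝ := B + B' + ε with hC
  have hC0 : 0 < C := by positivity
  refine ⟨min (min σ₁ σ₂) (M / (2 * C)), lt_min (lt_min hσ₁ hσ₂) (by positivity), ?_⟩
  intro σ hσ hσlt
  have hs1 : σ < σ₁ := hσlt.trans_le ((min_le_left _ _).trans (min_le_left _ _))
  have hs2 : σ < σ₂ := hσlt.trans_le ((min_le_left _ _).trans (min_le_right _ _))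
  have hs3 : σ * C < M := by
    have : σ < M / (2 * C) := hσlt.trans_le (min_le_right _ _)
    rw [lt_div_iff₀ (by positivity)] at this
    nlinarith
  obtain ⟨t, htA, ht⟩ := hV1 σ hσ hs1
  obtain ⟨s, hsA, hs⟩ := hW1 σ hσ hs2
  have htn : ∀ z ∈ ball z₀ ρ₁, ‖t.g z - z‖ ≤ σ * C := by
    intro z hz
    have e : t.g z - z = (t.g z - z - σ • V z) + σ • V z := by abel
    have n1 : ‖σ • V z‖ ≤ σ * B := by
      rw [norm_smul, Real.norm_of_nonneg hσ.le]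
      exact mul_le_mul_of_nonneg_left (hB z hz) hσ.le
    calc ‖t.g z - z‖ ≤ ‖t.g z - z - σ • V z‖ + ‖σ • V z‖ := by
          conv_lhs => rw [e]
          exact norm_add_le _ _
      _ ≤ ε / 3 * σ + σ * B := add_le_add (ht z hz) n1
      _ ≤ σ * C := by rw [hC]; nlinarith
  have hsn : ∀ z ∈ ball z₀ ρ₁, ‖s.g z - z‖ ≤ σ * C := by
    intro z hz
    have e : s.g z - z = (s.g z - z - σ • W z) + σ • W z := by abel
    have n1 : ‖σ • W z‖ ≤ σ * B' := by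
      rw [norm_smul, Real.norm_of_nonneg hσ.le]
      exact mul_le_mul_of_nonneg_left (hB' z hz) hσ.le
    calc ‖s.g z - z‖ ≤ ‖s.g z - z - σ • W z‖ + ‖σ • W z‖ := by
          conv_lhs => rw [e]
          exact norm_add_le _ _
      _ ≤ ε / 3 * σ + σ * B' := add_le_add (hs z hz) n1
      _ ≤ σ * C := by rw [hC]; nlinarith
  have hMη : M ≤ η := min_le_left _ _
  have hMδ : M ≤ δ := (min_le_right _ _).trans (min_le_left _ _)
  have hMρ : M ≤ ρ₁ - ρ := (min_le_right _ _).trans (min_le_right _ _)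
  have hNt : Near z₀ (r / 2) t.g η := fun z hz =>
    (htn z (ball_subset_ball h2.le hz)).trans (by linarith)
  have hNs : Near z₀ (r / 2) s.g η := fun z hz =>
    (hsn z (ball_subset_ball h2.le hz)).trans (by linarith)
  obtain ⟨_, u, huA, hu⟩ := (hmul t htA hNt).1 s hsA hNs
  refine ⟨u, huA, fun z hz => ?_⟩
  have hz1 : z ∈ ball z₀ ρ₁ := ball_subset_ball h1.le hz
  have hsz : s.g z ∈ ball z₀ ρ₁ := by
    rw [mem_ball, dist_eq_norm] at hz ⊢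
    have e : s.g z - z₀ = (s.g z - z) + (z - z₀) := by abel
    rw [e]
    calc _ ≤ ‖s.g z - z‖ + ‖z - z₀‖ := norm_add_le _ _
      _ < M + ρ := add_lt_add_of_le_of_lt ((hsn z hz1).trans hs3.le) hz
      _ ≤ ρ₁ := by linarith
  have hug : u.g z = t.g (s.g z) := (hu z hz).1
  have e : u.g z - z - σ • (V + W) z =
      (t.g (s.g z) - s.g z - σ • V (s.g z)) + (s.g z - z - σ • W z)
        + σ • (V (s.g z) - V z) := by
    rw [hug, Pi.add_apply, smul_add, smul_sub]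
    abel
  rw [e]
  have n3 : ‖σ • (V (s.g z) - V z)‖ ≤ σ * (ε / 3) := by
    rw [norm_smul, Real.norm_of_nonneg hσ.le]
    exact mul_le_mul_of_nonneg_left (hVδ _ hsz _ hz1 ((hsn z hz1).trans (by linarith))) hσ.le
  calc _ ≤ ‖t.g (s.g z) - s.g z - σ • V (s.g z)‖ + ‖s.g z - z - σ • W z‖
        + ‖σ • (V (s.g z) - V z)‖ := norm_add₃_le
    _ ≤ ε / 3 * σ + ε / 3 * σ + σ * (ε / 3) :=
        add_le_add (add_le_add (ht _ hsz) (hs _ hz1)) n3
    _ = ε * σ := by ring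

lemma inLL_neg (hM : S_LMUL) {b : ℕ} {z₀ : Cn b} {r : ℝ} {A : Set (Tri b)} (hA : LGrp z₀ r A)
    {V : Cn b → Cn b} (hV : InLL z₀ r A V) : InLL z₀ r A (-V) := by
  refine ⟨hV.1.neg, fun z hz => by simp [hV.2.1 z hz], fun ρ hρ ε hε => ?_⟩
  have hr := hA.pos
  obtain ⟨ρ₁, hρ₁, hρ₁r⟩ := exists_between (max_lt hρ (half_lt_self hr))
  have h1 : ρ < ρ₁ := lt_of_le_of_lt (le_max_left _ _) hρ₁
  have h2 : r / 2 < ρ₁ := lt_of_le_of_lt (le_max_right _ _) hρ₁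
  obtain ⟨⟨B, hB0, hB⟩, hVu⟩ := bdd_unif hρ₁r hV.1
  obtain ⟨δ, hδ, hVδ⟩ := hVu (ε / 2) (by positivity)
  obtain ⟨η, hη, hmul⟩ := hM hA ρ hρ (min δ ((ρ₁ - ρ) / 2)) (lt_min hδ (by linarith))
  obtain ⟨σ₁, hσ₁, hV1⟩ := hV.2.2 ρ₁ hρ₁r (ε / 2) (by positivity)
  set C : ℝ := B + ε with hC
  have hC0 : 0 < C := by positivity
  refine ⟨min σ₁ (η / (2 * C)), lt_min hσ₁ (by positivity), ?_⟩
  intro σ hσ hσlt
  have hs1 : σ < σ₁ := hσlt.trans_le (min_le_left _ _)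
  have hs3 : σ * C < η := by
    have : σ < η / (2 * C) := hσlt.trans_le (min_le_right _ _)
    rw [lt_div_iff₀ (by positivity)] at this
    nlinarith
  obtain ⟨t, htA, ht⟩ := hV1 σ hσ hs1
  have htn : ∀ z ∈ ball z₀ ρ₁, ‖t.g z - z‖ ≤ σ * C := by
    intro z hz
    have e : t.g z - z = (t.g z - z - σ • V z) + σ • V z := by abel
    have n1 : ‖σ • V z‖ ≤ σ * B := by
      rw [norm_smul, Real.norm_of_nonneg hσ.le]
      exact mul_le_mul_of_nonneg_left (hB z hz) hσ.le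
    calc ‖t.g z - z‖ ≤ ‖t.g z - z - σ • V z‖ + ‖σ • V z‖ := by
          conv_lhs => rw [e]
          exact norm_add_le _ _
      _ ≤ ε / 2 * σ + σ * B := add_le_add (ht z hz) n1
      _ ≤ σ * C := by rw [hC]; nlinarith
  have hNt : Near z₀ (r / 2) t.g η := fun z hz =>
    (htn z (ball_subset_ball h2.le hz)).trans (by linarith)
  obtain ⟨u, huA, -, htu, -, hnu⟩ := (hmul t htA hNt).2.2
  refine ⟨u, huA, fun w hw => ?_⟩
  have hw1 : w ∈ ball z₀ ρ₁ := ball_subset_ball h1.le hw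
  have hzw : ‖u.g w - w‖ ≤ min δ ((ρ₁ - ρ) / 2) := hnu w hw
  have hz1 : u.g w ∈ ball z₀ ρ₁ := by
    have hw' := hw
    rw [mem_ball, dist_eq_norm] at hw' ⊢
    have e : u.g w - z₀ = (u.g w - w) + (w - z₀) := by abel
    rw [e]
    calc _ ≤ ‖u.g w - w‖ + ‖w - z₀‖ := norm_add_le _ _
      _ < (ρ₁ - ρ) / 2 + ρ := add_lt_add_of_le_of_lt (hzw.trans (min_le_right _ _)) hw'
      _ ≤ ρ₁ := by linarith
  have htz : t.g (u.g w) = w := (htu w hw).1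
  have e : u.g w - w - σ • (-V) w =
      -(t.g (u.g w) - u.g w - σ • V (u.g w)) + -(σ • (V (u.g w) - V w)) := by
    rw [htz, Pi.neg_apply, smul_neg, smul_sub]
    abel
  rw [e]
  have n3 : ‖σ • (V (u.g w) - V w)‖ ≤ σ * (ε / 2) := by
    rw [norm_smul, Real.norm_of_nonneg hσ.le]
    exact mul_le_mul_of_nonneg_left (hVδ _ hz1 _ hw1 (hzw.trans (min_le_left _ _))) hσ.le
  calc _ ≤ ‖-(t.g (u.g w) - u.g w - σ • V (u.g w))‖ + ‖-(σ • (V (u.g w) - V w))‖ :=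
        norm_add_le _ _
    _ ≤ ε / 2 * σ + σ * (ε / 2) := by
        rw [norm_neg, norm_neg]
        exact add_le_add (ht _ hz1) n3
    _ = ε * σ := by ring

lemma inLL_pos {b : ℕ} {z₀ : Cn b} {r : ℝ} {A : Set (Tri b)}
    {V : Cn b → Cn b} (hV : InLL z₀ r A V) {c : ℝ} (hc : 0 < c) : InLL z₀ r A (c • V) := by
  refine ⟨hV.1.const_smul c, fun z hz => by simp [hV.2.1 z hz], fun ρ hρ ε hε => ?_⟩
  obtain ⟨σ₁, hσ₁, hV1⟩ := hV.2.2 ρ hρ (ε / c) (by positivity)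
  refine ⟨σ₁ / c, by positivity, fun σ hσ hσlt => ?_⟩
  rw [lt_div_iff₀ hc] at hσlt
  obtain ⟨t, htA, ht⟩ := hV1 (σ * c) (by positivity) hσlt
  refine ⟨t, htA, fun z hz => ?_⟩
  have := ht z hz
  rw [Pi.smul_apply, smul_smul]
  refine this.trans (le_of_eq ?_)
  field_simp

theorem LADD (_hC : S_LCONV) (hM : S_LMUL) (_hS : S_SURJ) : S_LADD' := by
  intro b z₀ r A hA
  refine ⟨inLL_zero hA, fun V W hV hW => inLL_add hM hA hV hW, fun V hV c => ?_⟩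
  rcases lt_trichotomy c 0 with hc | hc | hc
  · have h := inLL_pos (inLL_neg hM hA hV) (neg_pos.2 hc)
    have e : (-c) • (-V) = c • V := by rw [neg_smul_neg]
    rwa [e] at h
  · subst hc
    rw [zero_smul]
    exact inLL_zero hA
  · exact inLL_pos hV hc

end Pool.Agent.Helper48.SP
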