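import Pool.Agent.Helper10.SP.GoalsT

open Complex Metric Set Filter Topology MeasureTheory
open scoped ContDiff ComplexConjugate ComplexOrder Manifold

namespace Pool.Agent.Helper48.SP

open Pool.Agent.Helper95.Lin Pool.Agent.Helper16.Abund Pool.Agent.Helper92.Orb
open Pool.Agent.Helper10.SP

universe u v

lemma fin_fiber (h5 : S_ARRB.{u}) {n : ℕ} {T : Set (Cn n)} {G : Type u} [Group G]
    {R : G → Cn n → Cn n → Prop} (hE : Et T R) {C : Set (Cn n)} (hCT : C ⊆ T) (hC : IsCompact C)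
    {x₀ : Cn n} (hx₀ : x₀ ∈ T) (γ : G) : {y | y ∈ C ∧ R γ x₀ y}.Finite := by
  have key : ∀ y ∈ C, ∃ W ∈ 𝓝 y, ∀ y' ∈ W, R γ x₀ y' → y' = y := by
    intro y hy
    by_cases h : R γ x₀ y
    · exact (h5 T R hE).2.2.2.2 γ x₀ y h
    · have := mt (hE.closed γ x₀ hx₀ y (hCT hy)) h
      push Not at this
      obtain ⟨U, hU, W, hW, hUW⟩ := this
      exact ⟨W, hW, fun y' hy' hR => absurd hR (hUW x₀ (mem_of_mem_nhds hU) y' hy')⟩
  choose! W hW hWu using key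
  obtain ⟨t, htC, htcov⟩ := hC.elim_nhds_subcover W hW
  refine (t.finite_toSet).subset ?_
  rintro y ⟨hyC, hR⟩
  obtain ⟨z, hz, hyz⟩ := mem_iUnion₂.1 (htcov hyC)
  have : y = z := hWu z (htC z hz) y hyz hR
  rw [this]
  exact hz

theorem lfin (h5 : S_ARRB.{u}) : S_LFIN.{u} := by
  intro n T G _ R hE C hCT hC x₀ hx₀
  classical
  set 𝒟 : Set (G × Cn n) := {p | R p.1 x₀ p.2 ∧ p.2 ∈ C} with h𝒟
  have hfinD : 𝒟.Finite := by
    have hG : {γ | ∃ x ∈ insert x₀ C, ∃ y ∈ insert x₀ C, R γ x y}.Finite :=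
      hE.fin (insert x₀ C) (insert_subset hx₀ hCT) (hC.insert x₀)
    have hbig : (⋃ γ ∈ {γ | ∃ x ∈ insert x₀ C, ∃ y ∈ insert x₀ C, R γ x y},
        (fun y => (γ, y)) '' {y | y ∈ C ∧ R γ x₀ y}).Finite :=
      hG.biUnion fun γ _ => (fin_fiber h5 hE hCT hC hx₀ γ).image _
    refine hbig.subset ?_
    rintro ⟨γ, y⟩ ⟨hR, hy⟩
    exact mem_iUnion₂.2 ⟨γ, ⟨x₀, mem_insert _ _, y, mem_insert_of_mem _ hy, hR⟩,
      ⟨y, ⟨hy, hR⟩, rfl⟩⟩
  have : Finite 𝒟 := hfinD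
  have hloc : ∀ p : 𝒟, ∃ (τ : Cn n → Cn n) (U W : Set (Cn n)), IsOpen U ∧ IsOpen W ∧
    x₀ ∈ U ∧ p.1.2 ∈ W ∧ U ⊆ T ∧ W ⊆ T ∧ DifferentiableOn ℂ τ U ∧ InjOn τ U ∧ MapsTo τ U W ∧
    (∀ x' ∈ U, (fderiv ℂ τ x').det ≠ 0) ∧ ∀ x' ∈ U, ∀ y' ∈ W, R p.1.1 x' y' ↔ y' = τ x' :=
    fun p => hE.loc p.1.1 x₀ p.1.2 p.2.1
  choose τ U W hUo hWo hxU hyW hUT hWT hdiff hinj hmaps hdet hiff using hloc
  have hτx : ∀ p : 𝒟, τ p x₀ = p.1.2 := fun p =>
    ((hiff p x₀ (hxU p) p.1.2 (hyW p)).1 p.2.1).symm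
  have hcont : ∀ p : 𝒟, ContinuousAt (τ p) x₀ := fun p =>
    ((hdiff p).continuousOn).continuousAt ((hUo p).mem_nhds (hxU p))
  -- eventually all arrows to `C` are among the `τ p`
  obtain ⟨ρ, hρ, hρT⟩ := Metric.isOpen_iff.1 hE.isOpen x₀ hx₀
  have hcb : closedBall x₀ (ρ / 2) ⊆ T :=
    (closedBall_subset_ball (by linarith)).trans hρT
  have hDc : IsCompact (closedBall x₀ (ρ / 2) ∪ C) := (isCompact_closedBall x₀ _).union hC
  have hG : {γ | ∃ x ∈ closedBall x₀ (ρ / 2) ∪ C, ∃ y ∈ closedBall x₀ (ρ / 2) ∪ C, R γ x y}.Finite :=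
    hE.fin _ (union_subset hcb hCT) hDc
  have hclaim : ∀ γ : G, ∀ᶠ x in 𝓝 x₀, ∀ y ∈ C, R γ x y → ∃ p : 𝒟, γ = p.1.1 ∧ y = τ p x := by
    intro γ
    refine hC.eventually_forall_of_forall_eventually (P := fun x y => R γ x y →
      ∃ p : 𝒟, γ = p.1.1 ∧ y = τ p x) fun y hy => ?_
    by_cases h : R γ x₀ y
    · let p : 𝒟 := ⟨(γ, y), h, hy⟩
      have hn : U p ×ˢ W p ∈ 𝓝 (x₀, y) :=
        prod_mem_nhds ((hUo p).mem_nhds (hxU p)) ((hWo p).mem_nhds (hyW p))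
      filter_upwards [hn] with z hz hR
      exact ⟨p, rfl, (hiff p z.1 hz.1 z.2 hz.2).1 hR⟩
    · have := mt (hE.closed γ x₀ hx₀ y (hCT hy)) h
      push Not at this
      obtain ⟨U', hU', W', hW', hUW⟩ := this
      filter_upwards [prod_mem_nhds hU' hW'] with z hz hR
      exact absurd hR (hUW z.1 hz.1 z.2 hz.2)
  have hall : ∀ᶠ x in 𝓝 x₀, ∀ γ ∈ {γ | ∃ x ∈ closedBall x₀ (ρ / 2) ∪ C,
      ∃ y ∈ closedBall x₀ (ρ / 2) ∪ C, R γ x y}, ∀ y ∈ C, R γ x y →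
      ∃ p : 𝒟, γ = p.1.1 ∧ y = τ p x :=
    (Filter.eventually_all_finite hG).2 fun γ _ => hclaim γ
  have hball : ∀ᶠ x in 𝓝 x₀, x ∈ closedBall x₀ (ρ / 2) :=
    closedBall_mem_nhds x₀ (by positivity)
  have hUall : ∀ᶠ x in 𝓝 x₀, ∀ p : 𝒟, x ∈ U p :=
    Filter.eventually_all.2 fun p => (hUo p).mem_nhds (hxU p)
  have hdist : ∀ᶠ x in 𝓝 x₀, ∀ p q : 𝒟, p.1.1 = q.1.1 → τ p x = τ q x → p = q := by
    refine Filter.eventually_all.2 fun p => Filter.eventually_all.2 fun q => ?_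
    by_cases hpq : p.1.1 = q.1.1 ∧ p ≠ q
    · obtain ⟨h1, h2⟩ := hpq
      have hne : τ p x₀ ≠ τ q x₀ := by
        rw [hτx, hτx]
        intro h3
        exact h2 (Subtype.ext (Prod.ext h1 h3))
      filter_upwards [((hcont p).sub (hcont q)).eventually_ne (sub_ne_zero.2 hne)] with x hx _ h
      exact absurd (sub_eq_zero.2 h) hx
    · refine Filter.Eventually.of_forall fun x h1 _ => ?_
      by_contra h2
      exact hpq ⟨h1, h2⟩
  have hT : ∀ᶠ x in 𝓝 x₀, x ∈ T := hE.isOpen.mem_nhds hx₀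
  obtain ⟨V, hVall, hVo, hxV⟩ := _root_.mem_nhds_iff.1
    (hall.and (hball.and (hUall.and (hdist.and hT))))
  obtain ⟨m, ⟨e⟩⟩ := Finite.exists_equiv_fin 𝒟
  have hA : ∀ x ∈ V, ∀ γ' y, R γ' x y → y ∈ C → ∃ k : Fin m,
      γ' = (e.symm k).1.1 ∧ y = τ (e.symm k) x := by
    intro x hx γ' y hR hy
    obtain ⟨h1, h2, -⟩ := hVall hx
    obtain ⟨p, hp1, hp2⟩ := h1 γ' ⟨x, Or.inl h2, y, Or.inr hy, hR⟩ y hy hR
    exact ⟨e p, by simpa using hp1, by simpa using hp2⟩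
  have hB : ∀ x ∈ V, ∀ k l : Fin m, (e.symm k).1.1 = (e.symm l).1.1 →
      τ (e.symm k) x = τ (e.symm l) x → k = l := by
    intro x hx k l h1 h2
    obtain ⟨-, -, -, h, -⟩ := hVall hx
    exact e.symm.injective (h _ _ h1 h2)
  have hL : ∀ k : Fin m, LAr R (e.symm k).1.1 V (τ (e.symm k)) := by
    intro k
    have hsub : V ⊆ U (e.symm k) := fun x hx => (hVall hx).2.2.1 _
    exact ⟨hVo, (hdiff _).mono hsub, fun x hx =>
      (hiff _ x (hsub hx) _ (hmaps _ (hsub hx))).2 rfl⟩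
  refine ⟨V, m, fun k => (e.symm k).1.1, fun k => τ (e.symm k), hxV, hVo,
    fun x hx => (hVall hx).2.2.2.2, fun k => ⟨hL k, (hinj _).mono fun x hx =>
      (hVall hx).2.2.1 _⟩, hB, hA, ?_⟩
  intro E _ f hf x hx
  have hinjE : Function.Injective (fun k : Fin m => ((e.symm k).1.1, τ (e.symm k) x)) := by
    intro k l h
    simp only [Prod.mk.injEq] at h
    exact hB x hx k l h.1 h.2
  have h1 : AS R x f = ∑ᶠ p ∈ {p : G × Cn n | R p.1 x p.2}, (fun p : G × Cn n => f p.1 p.2) p := rfl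
  rw [h1, finsum_mem_inter_support_eq (fun p : G × Cn n => f p.1 p.2) _
    (range (fun k : Fin m => ((e.symm k).1.1, τ (e.symm k) x))), finsum_mem_range hinjE,
    finsum_eq_sum_of_fintype]
  ext p
  simp only [mem_inter_iff, Function.mem_support, and_congr_left_iff]
  intro hp
  constructor
  · intro hR
    have hpC : p.2 ∈ C := by
      by_contra hpC
      exact hp (hf _ _ hpC)
    obtain ⟨k, hk1, hk2⟩ := hA x hx p.1 p.2 hR hpC
    exact ⟨k, Prod.ext hk1.symm hk2.symm⟩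
  · rintro ⟨k, rfl⟩
    exact (hL k).2.2 x hx

end Pool.Agent.Helper48.SP
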