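import Pool.Agent.Helper48.SP.Germ
import Pool.Agent.Helper59.SP.WCH

/-! # MU: the invariant density on the base -/

open Complex Metric Set Filter Topology MeasureTheory
open scoped ContDiff ComplexConjugate ComplexOrder Manifold

namespace Pool.Agent.Helper48.SP

open Pool.Agent.Helper95.Lin Pool.Agent.Helper16.Abund Pool.Agent.Helper92.Orb
open Pool.Agent.Helper10.SP Pool.Agent.Helper22.Lin
open Pool.Agent.Helper59.SP (LM_eq hess_eq single_I log_smooth log_LM)

universe u v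

/-! ## Levi matrices -/

section levi

variable {n : ℕ} {W : Set (Cn n)}

lemma hess_add (hW : IsOpen W) {f g : Cn n → ℝ} (hf : ContDiffOn ℝ ∞ f W)
    (hg : ContDiffOn ℝ ∞ g W) {x : Cn n} (hx : x ∈ W) (u v : Cn n) :
    hess (fun y => f y + g y) x u v = hess f x u v + hess g x u v := by
  have hd : ∀ y ∈ W, DifferentiableAt ℝ f y := fun y hy =>
    (hf.differentiableOn (by simp)).differentiableAt (hW.mem_nhds hy)
  have hd' : ∀ y ∈ W, DifferentiableAt ℝ g y := fun y hy =>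
    (hg.differentiableOn (by simp)).differentiableAt (hW.mem_nhds hy)
  have h1 : (fun y => fderiv ℝ (fun y => f y + g y) y v) =ᶠ[𝓝 x]
      fun y => fderiv ℝ f y v + fderiv ℝ g y v := by
    filter_upwards [hW.mem_nhds hx] with y hy
    rw [fderiv_fun_add (hd y hy) (hd' y hy)]
    rfl
  have d1 : DifferentiableAt ℝ (fun y => fderiv ℝ f y v) x :=
    ((hess_eq hW hf hx v v).1).clm_apply (differentiableAt_const v)
  have d2 : DifferentiableAt ℝ (fun y => fderiv ℝ g y v) x :=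
    ((hess_eq hW hg hx v v).1).clm_apply (differentiableAt_const v)
  simp only [hess]
  rw [h1.fderiv_eq, fderiv_fun_add d1 d2]
  rfl

lemma hess_congr {f g : Cn n → ℝ} {x : Cn n} (h : f =ᶠ[𝓝 x] g) (u v : Cn n) :
    hess f x u v = hess g x u v := by
  simp only [hess]
  have h1 : (fun y => fderiv ℝ f y v) =ᶠ[𝓝 x] fun y => fderiv ℝ g y v := by
    filter_upwards [h.eventually_nhds] with y hy
    rw [Filter.EventuallyEq.fderiv_eq hy]
  rw [h1.fderiv_eq]

lemma LM_congr {f g : Cn n → ℝ} {x : Cn n} (h : f =ᶠ[𝓝 x] g) : LM f x = LM g x := by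
  ext j k
  change cd j (cdb k (fun y => (f y : ℂ))) x = cd j (cdb k (fun y => (g y : ℂ))) x
  have h1 : (cdb k (fun y => (f y : ℂ))) =ᶠ[𝓝 x] cdb k (fun y => (g y : ℂ)) := by
    filter_upwards [h.eventually_nhds] with y hy
    have h2 : (fun y => (f y : ℂ)) =ᶠ[𝓝 y] fun y => (g y : ℂ) := by
      filter_upwards [hy] with z hz
      rw [hz]
    simp only [cdb, h2.fderiv_eq]
  simp only [cd, h1.fderiv_eq]

lemma LM_add (hW : IsOpen W) {f g : Cn n → ℝ} (hf : ContDiffOn ℝ ∞ f W)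
    (hg : ContDiffOn ℝ ∞ g W) {x : Cn n} (hx : x ∈ W) (j k : Fin n) :
    LM (fun y => f y + g y) x j k = LM f x j k + LM g x j k := by
  rw [LM_eq hW hf hx, LM_eq hW hg hx, LM_eq hW (hf.add hg) hx]
  simp only [hB, hess_add hW hf hg hx]
  push_cast
  ring

lemma LM_neg (hW : IsOpen W) {f : Cn n → ℝ} (hf : ContDiffOn ℝ ∞ f W) {x : Cn n} (hx : x ∈ W)
    (j k : Fin n) : LM (fun y => - f y) x j k = - LM f x j k := by
  have h := LM_add hW hf hf.neg hx j k
  have h0 : LM (fun y => f y + - f y) x j k = 0 := by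
    have e : (fun y => f y + - f y) = fun _ => (0 : ℝ) := by
      funext y
      ring
    rw [e, LM_eq (φ := fun _ => (0 : ℝ)) isOpen_univ contDiffOn_const (mem_univ x)]
    simp [hB, hess]
  rw [h0] at h
  linear_combination -h

lemma LM_zero_of_lev (hW : IsOpen W) {f : Cn n → ℝ} (hf : ContDiffOn ℝ ∞ f W) {x : Cn n}
    (hx : x ∈ W) (h : ∀ e, lev f x e = 0) (j k : Fin n) : LM f x j k = 0 := by
  have hq : ∀ u v, hess f x u v = fderiv ℝ (fderiv ℝ f) x u v := fun u v =>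
    (hess_eq hW hf hx u v).2
  have hsym : ∀ u v, fderiv ℝ (fderiv ℝ f) x u v = fderiv ℝ (fderiv ℝ f) x v u := by
    intro u v
    have hfx : ContDiffAt ℝ ∞ f x := hf.contDiffAt (hW.mem_nhds hx)
    refine (hfx.isSymmSndFDerivAt ?_).eq u v
    simp only [minSmoothness_of_isRCLikeNormedField]
    exact WithTop.coe_le_coe.2 le_top
  have hI : ∀ w : Cn n, I • (I • w) = - w := fun w => by
    rw [smul_smul, Complex.I_mul_I]; simp
  have h1 : ∀ u v, fderiv ℝ (fderiv ℝ f) x u v +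
      fderiv ℝ (fderiv ℝ f) x (I • u) (I • v) = 0 := by
    intro u v
    have e1 := h (u + v)
    have e2 := h u
    have e3 := h v
    simp only [lev, hq, smul_add, map_add, _root_.add_apply] at e1 e2 e3
    have s1 := hsym v u
    have s2 := hsym (I • v) (I • u)
    linarith
  rw [LM_eq hW hf hx]
  have a1 := h1 (Pi.single j 1) (Pi.single k 1)
  have a2 := h1 (Pi.single j 1) (I • Pi.single k 1)
  rw [hI, map_neg] at a2
  simp only [hB, hq]
  have b1 : (fderiv ℝ (fderiv ℝ f) x (Pi.single j 1) (Pi.single k 1) : ℂ) +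
      fderiv ℝ (fderiv ℝ f) x (I • Pi.single j 1) (I • Pi.single k 1) = 0 := by
    exact_mod_cast a1
  have b2 : (fderiv ℝ (fderiv ℝ f) x (Pi.single j 1) (I • Pi.single k 1) : ℂ) -
      fderiv ℝ (fderiv ℝ f) x (I • Pi.single j 1) (Pi.single k 1) = 0 := by
    have : fderiv ℝ (fderiv ℝ f) x (Pi.single j 1) (I • Pi.single k 1) -
      fderiv ℝ (fderiv ℝ f) x (I • Pi.single j 1) (Pi.single k 1) = 0 := by linarith
    exact_mod_cast this
  linear_combination b1 + I * b2

variable {τ : Cn n → ℂ}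

lemma im_smooth (hW : IsOpen W) (hτ : DifferentiableOn ℂ τ W) :
    ContDiffOn ℝ ∞ (fun y => (τ y).im) W :=
  Complex.imCLM.contDiff.comp_contDiffOn (holo_contDiffOn_real hW hτ)

lemma log_im_smooth (hW : IsOpen W) (hτ : DifferentiableOn ℂ τ W) (h0 : ∀ x ∈ W, 0 < (τ x).im) :
    ContDiffOn ℝ ∞ (fun y => Real.log (τ y).im) W :=
  (im_smooth hW hτ).log fun x hx => (h0 x hx).ne'

lemma log_im_fderiv (hW : IsOpen W) (hτ : DifferentiableOn ℂ τ W) (h0 : ∀ x ∈ W, 0 < (τ x).im)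
    {x : Cn n} (hx : x ∈ W) (v : Cn n) :
    fderiv ℝ (fun y => Real.log (τ y).im) x v = (fderiv ℂ τ x v).im / (τ x).im := by
  have hd : DifferentiableAt ℂ τ x := hτ.differentiableAt (hW.mem_nhds hx)
  have h1 : HasFDerivAt τ ((fderiv ℂ τ x).restrictScalars ℝ) x := hd.hasFDerivAt.restrictScalars ℝ
  have h2 : HasFDerivAt (fun y => (τ y).im)
      (Complex.imCLM.comp ((fderiv ℂ τ x).restrictScalars ℝ)) x :=
    Complex.imCLM.hasFDerivAt.comp x h1
  have h3 := (h2.log (h0 x hx).ne').fderiv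
  rw [h3]
  simp only [_root_.smul_apply, ContinuousLinearMap.comp_apply,
    ContinuousLinearMap.coe_restrictScalars', Complex.imCLM_apply, smul_eq_mul]
  ring

lemma log_im_hess (hW : IsOpen W) (hτ : DifferentiableOn ℂ τ W) (h0 : ∀ x ∈ W, 0 < (τ x).im)
    {x : Cn n} (hx : x ∈ W) (u v : Cn n) :
    hess (fun y => Real.log (τ y).im) x u v =
      (fderiv ℂ (fun y => fderiv ℂ τ y v) x u).im / (τ x).im -
        (fderiv ℂ τ x v).im * (fderiv ℂ τ x u).im / (τ x).im ^ 2 := by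
  have hd : DifferentiableAt ℂ τ x := hτ.differentiableAt (hW.mem_nhds hx)
  have h1 : (fun y => fderiv ℝ (fun y => Real.log (τ y).im) y v) =ᶠ[𝓝 x]
      fun y => (fderiv ℂ τ y v).im * ((τ y).im)⁻¹ := by
    filter_upwards [hW.mem_nhds hx] with y hy
    rw [log_im_fderiv hW hτ h0 hy v, div_eq_mul_inv]
  have hq : DifferentiableAt ℂ (fun y => fderiv ℂ τ y v) x :=
    ((holo_fderiv hW hτ).differentiableAt (hW.mem_nhds hx)).clm_apply (differentiableAt_const v)
  have h2 : HasFDerivAt (fun y => (fderiv ℂ τ y v).im)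
      (Complex.imCLM.comp ((fderiv ℂ (fun y => fderiv ℂ τ y v) x).restrictScalars ℝ)) x :=
    Complex.imCLM.hasFDerivAt.comp x (hq.hasFDerivAt.restrictScalars ℝ)
  have h3 : HasFDerivAt (fun y => (τ y).im)
      (Complex.imCLM.comp ((fderiv ℂ τ x).restrictScalars ℝ)) x :=
    Complex.imCLM.hasFDerivAt.comp x (hd.hasFDerivAt.restrictScalars ℝ)
  have h4 : HasFDerivAt (fun y => ((τ y).im)⁻¹)
      (-((τ x).im ^ 2)⁻¹ • (Complex.imCLM.comp ((fderiv ℂ τ x).restrictScalars ℝ))) x :=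
    (hasDerivAt_inv (h0 x hx).ne').comp_hasFDerivAt x h3
  have h5 := (h2.mul h4).fderiv
  simp only [hess]
  rw [h1.fderiv_eq]
  have h6 : fderiv ℝ (fun y => (fderiv ℂ τ y v).im * ((τ y).im)⁻¹) x u =
      (fderiv ℂ τ x v).im * (-((τ x).im ^ 2)⁻¹ * (fderiv ℂ τ x u).im) +
      ((τ x).im)⁻¹ * (fderiv ℂ (fun y => fderiv ℂ τ y v) x u).im := by
    have h7 : (fun y => (fderiv ℂ τ y v).im * ((τ y).im)⁻¹) =
      (fun y => (fderiv ℂ τ y v).im) * (fun y => ((τ y).im)⁻¹) := rfl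
    rw [h7, h5]
    rfl
  rw [h6]
  ring

lemma fd_I (hW : IsOpen W) (hτ : DifferentiableOn ℂ τ W) {x : Cn n} (hx : x ∈ W) (u v : Cn n) :
    fderiv ℂ (fun y => fderiv ℂ τ y (I • v)) x u =
      I * fderiv ℂ (fun y => fderiv ℂ τ y v) x u := by
  have hq : DifferentiableAt ℂ (fun y => fderiv ℂ τ y v) x :=
    ((holo_fderiv hW hτ).differentiableAt (hW.mem_nhds hx)).clm_apply (differentiableAt_const v)
  have h1 : (fun y => fderiv ℂ τ y (I • v)) = fun y => I • fderiv ℂ τ y v := by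
    funext y
    rw [map_smul]
  rw [h1, fderiv_fun_const_smul hq]
  rfl

lemma LM_log_im (hW : IsOpen W) (hτ : DifferentiableOn ℂ τ W) (h0 : ∀ x ∈ W, 0 < (τ x).im)
    {x : Cn n} (hx : x ∈ W) (j k : Fin n) :
    LM (fun y => Real.log (τ y).im) x j k =
      - (fderiv ℂ τ x (Pi.single j 1) * conj (fderiv ℂ τ x (Pi.single k 1)) /
        (((τ x).im ^ 2 : ℝ) : ℂ)) := by
  rw [LM_eq hW (log_im_smooth hW hτ h0) hx]
  simp only [hB, log_im_hess hW hτ h0 hx]
  simp only [fd_I hW hτ hx]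
  simp only [map_smul, smul_eq_mul]
  have hy : ((τ x).im : ℂ) ≠ 0 := by
    exact_mod_cast (h0 x hx).ne'
  generalize fderiv ℂ τ x (Pi.single j 1) = a
  generalize fderiv ℂ τ x (Pi.single k 1) = e
  generalize fderiv ℂ (fun y => fderiv ℂ τ y (Pi.single k 1)) x (Pi.single j 1) = T
  generalize (τ x).im = y at hy
  push_cast
  field_simp
  apply Complex.ext
  · simp
    ring
  · simp
    ring

end levi

/-! ## The density -/

lemma Bd_mono {b N : ℕ} (c : Fin N → Cn b) {r r' : ℝ} (h : r ≤ r') : Bd c r ⊆ Bd c r' :=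
  iUnion_mono fun _ => ball_subset_ball h

lemma isOpen_Bd {b N : ℕ} (c : Fin N → Cn b) (r : ℝ) : IsOpen (Bd c r) :=
  isOpen_iUnion fun _ => isOpen_ball

/-- The imaginary part of `conj (lam 0) * lam 1`. -/
noncomputable def dens {b : ℕ} (lam : Fin 2 → Cn b → ℂ) (z : Cn b) : ℝ :=
  (conj (lam 0 z) * lam 1 z).im

/-- The cocycle `- log det Q`. -/
noncomputable def coQ {b : ℕ} (lam : Fin 2 → Cn b → ℂ) (t : Tri b) (z : Cn b) : ℝ :=
  - Real.log (‖t.a z‖ ^ 2 * dens lam z / dens lam (t.g z))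

theorem mu (_hW : S_WCH) (_hL : S_LMF) (hH : S_HODC.{u}) (hT : S_TAUB) : S_MU.{u} := by
  intro b N G _ c R Rel P Φ C H hF lam hlam
  obtain ⟨T1, T2, T3⟩ := hT c P lam hlam
  have h23 : Bd c 2 ⊆ Bd c 3 := Bd_mono c (by norm_num)
  have h2R : Bd c 2 ⊆ Bd c R := Bd_mono c (by
    have h1 := hF.fol.Rge
    have h2 := hF.fol.Cge
    linarith)
  obtain ⟨B, hB0, hB⟩ := hlam.bdd
  have hD0 : ∀ z ∈ Bd c 3, 0 < dens lam z := by
    intro z hz
    obtain ⟨h0, h1, h2⟩ := T1 z hz
    unfold dens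
    rw [h2]
    have := norm_pos_iff.2 h0
    positivity
  have hDup : ∀ z ∈ Bd c 3, dens lam z ≤ B * B := by
    intro z hz
    have h1 : dens lam z ≤ ‖conj (lam 0 z) * lam 1 z‖ :=
      (le_abs_self _).trans (Complex.abs_im_le_norm _)
    rw [norm_mul, RCLike.norm_conj] at h1
    exact h1.trans (mul_le_mul ((hB z hz).1 0) ((hB z hz).1 1) (norm_nonneg _) hB0.le)
  have hDlo : ∀ z ∈ Bd c 3, 1 ≤ B * dens lam z := fun z hz => (hB z hz).2
  have hC1 := hF.fol.Cge
  have hC0 : 0 < C := by linarith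
  -- bounds of `a`
  have habd : ∀ U t, P U t → ∀ z ∈ U, z ∈ Bd c 2 → t.g z ∈ Bd c 2 →
      ‖t.a z‖ ≤ C ∧ 1 ≤ C * ‖t.a z‖ := by
    intro U t hP z hz hz2 hg2
    obtain ⟨i, hi⟩ := mem_iUnion.1 hz2
    obtain ⟨t', U', hP', hU', hzU', hsub, he⟩ := hF.fol.ext i z hi U t hP hz hg2
    have hbig : Big c P i t' := ⟨hP', z, hi, by rw [(he z hzU').1]; exact hg2⟩
    have := hF.fol.abd i t' hbig z (ball_subset_ball (by norm_num) hi)
    rwa [(he z hzU').2.1] at this
  obtain ⟨u₁, hu1, hu2, hu3⟩ := hodc_germ hH hF (coQ lam) (by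
      intro t t' z h
      have h1 := h.self_of_nhds
      simp only [coQ, h1.1, h1.2.1]) (by
      refine ⟨Real.log (C ^ 2 * (B * B * B)), fun U t hP z hz hz2 hg2 => ?_⟩
      obtain ⟨a1, a2⟩ := habd U t hP z hz hz2 hg2
      have d1 := hDup z (h23 hz2)
      have d2 := hDlo z (h23 hz2)
      have d3 := hDup _ (h23 hg2)
      have d4 := hDlo _ (h23 hg2)
      have p1 := hD0 z (h23 hz2)
      have p2 := hD0 _ (h23 hg2)
      have ha : 0 < ‖t.a z‖ := by
        by_contra hcon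
        have : ‖t.a z‖ = 0 := le_antisymm (not_lt.1 hcon) (norm_nonneg _)
        rw [this, mul_zero] at a2
        linarith
      have hq : 0 < ‖t.a z‖ ^ 2 * dens lam z / dens lam (t.g z) := by positivity
      have hK : 0 < C ^ 2 * (B * B * B) := by positivity
      unfold coQ
      rw [abs_neg, abs_le]
      constructor
      · rw [← Real.log_inv]
        refine Real.log_le_log (by positivity) ?_
        rw [le_div_iff₀ p2, inv_mul_le_iff₀ hK]
        have e1 : 1 ≤ C ^ 2 * ‖t.a z‖ ^ 2 := by nlinarith [mul_pos hC0 ha]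
        calc dens lam (t.g z) ≤ B * B := d3
          _ ≤ B * B * (B * dens lam z) := le_mul_of_one_le_right (by positivity) d2
          _ ≤ (B * B * (B * dens lam z)) * (C ^ 2 * ‖t.a z‖ ^ 2) :=
              le_mul_of_one_le_right (by positivity) e1
          _ = _ := by ring
      · refine Real.log_le_log hq ?_
        rw [div_le_iff₀ p2]
        have e1 : ‖t.a z‖ ^ 2 ≤ C ^ 2 := pow_le_pow_left₀ ha.le a1 2
        calc ‖t.a z‖ ^ 2 * dens lam z ≤ C ^ 2 * (B * B) :=
              mul_le_mul e1 d1 p1.le (by positivity)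
          _ ≤ C ^ 2 * (B * B) * (B * dens lam (t.g z)) := le_mul_of_one_le_right (by positivity) d4
          _ = _ := by ring) (by
      intro U t U' s hP hP' z hz hz2 hgU hg2 hsg
      have p1 := hD0 z (h23 hz2)
      have p2 := hD0 _ (h23 hg2)
      have p3 := hD0 _ (h23 hsg)
      have a1 : t.a z ≠ 0 := ((hF.fol.holo U t hP).2.2.2.2.2 z hz).2
      have a2 : s.a (t.g z) ≠ 0 := ((hF.fol.holo U' s hP').2.2.2.2.2 _ hgU).2
      have n1 := norm_pos_iff.2 a1
      have n2 := norm_pos_iff.2 a2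
      unfold coQ
      simp only [Tri.comp]
      rw [← neg_add, ← Real.log_mul (by positivity) (by positivity)]
      congr 2
      rw [norm_mul]
      field_simp) (by
      intro U t hP z hz hz2 hg2
      obtain ⟨Q, U', hQ, hU', hzU', hsub, hrel⟩ := hlam.trans U t hP z hz hz2 hg2
      obtain ⟨hUo, -, hgd, -, -, hne⟩ := hF.fol.holo U t hP
      have hcg : ContinuousAt t.g z := (hgd.continuousOn).continuousAt (hUo.mem_nhds hz)
      have e1 : ∀ᶠ z' in 𝓝 z, t.g z' ∈ Bd c 2 := hcg.eventually ((isOpen_Bd c 2).mem_nhds hg2)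
      have key : ∀ z' ∈ U', z' ∈ Bd c 2 → t.g z' ∈ Bd c 2 → coQ lam t z' = - Real.log Q.det := by
        intro z' hz' hz2' hg2'
        have h1 := T3 t Q z' (h23 hz2') (h23 hg2') (hgd.differentiableAt
          (hUo.mem_nhds (hsub hz'))) (by
            filter_upwards [hU'.mem_nhds hz'] with z'' hz'' j
            exact hrel z'' hz'' j) (hne z' (hsub hz')).2
        obtain ⟨-, -, -, -, -, h2⟩ := h1
        have p2 := hD0 _ (h23 hg2')
        unfold coQ
        congr 2
        rw [div_eq_iff p2.ne']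
        exact h2
      filter_upwards [e1, hU'.mem_nhds hzU', (isOpen_Bd c 2).mem_nhds hz2] with z' k1 k2 k3
      rw [key z' k2 k3 k1, key z hzU' hz2 hg2])
  have hlam0 : DifferentiableOn ℂ (lam 0) (Bd c 2) := (hlam.holo 0).mono h23
  have hlam1 : DifferentiableOn ℂ (lam 1) (Bd c 2) := (hlam.holo 1).mono h23
  have hτ : DifferentiableOn ℂ (tau lam) (Bd c 2) := T2.mono h23
  have ho := isOpen_Bd c 2
  have hΦ : ContDiffOn ℝ ∞ Φ (Bd c 2) := hF.fol.smooth.mono h2R
  have hDs : ContDiffOn ℝ ∞ (dens lam) (Bd c 2) := by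
    have c0 : ContDiffOn ℝ ∞ (lam 0) (Bd c 2) := holo_contDiffOn_real ho hlam0
    have c1 : ContDiffOn ℝ ∞ (lam 1) (Bd c 2) := holo_contDiffOn_real ho hlam1
    have c2 : ContDiffOn ℝ ∞ (fun z => conj (lam 0 z)) (Bd c 2) :=
      Complex.conjCLE.contDiff.comp_contDiffOn c0
    exact Complex.imCLM.contDiff.comp_contDiffOn (c2.mul c1)
  refine ⟨fun z => Real.exp (Φ z - u₁ z) * dens lam z, ?_, ?_, ?_, ?_⟩
  · exact ((hΦ.sub hu1).exp).mul hDs
  · intro z hz
    have := hD0 z (h23 hz)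
    positivity
  · intro U t hPB z hz
    obtain ⟨hP, hsub, hmaps⟩ := hPB
    obtain ⟨hdet, hpot⟩ := hF.fol.pot U t hP z hz
    have hu := hu3 U t ⟨hP, hsub, hmaps⟩ z hz
    have a1 : t.a z ≠ 0 := ((hF.fol.holo U t hP).2.2.2.2.2 z hz).2
    have n1 := norm_pos_iff.2 a1
    have n2 := norm_pos_iff.2 hdet
    have p1 := hD0 z (h23 (hsub hz))
    have p2 := hD0 _ (h23 (hmaps hz))
    have e1 : Φ z - u₁ z = (Φ (t.g z) - u₁ (t.g z)) + Real.log (‖(fderiv ℂ t.g z).det‖ ^ 2) +
        (Real.log (‖t.a z‖ ^ 2) - Real.log (‖t.a z‖ ^ 2 * dens lam z / dens lam (t.g z))) := by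
      unfold coQ at hu
      linarith
    have e2 : Real.log (‖t.a z‖ ^ 2) - Real.log (‖t.a z‖ ^ 2 * dens lam z / dens lam (t.g z)) =
        Real.log (dens lam (t.g z) / dens lam z) := by
      rw [← Real.log_div (by positivity) (by positivity)]
      congr 1
      field_simp
    simp only
    rw [e1, e2, Real.exp_add, Real.exp_add, Real.exp_log (by positivity),
      Real.exp_log (by positivity)]
    field_simp
  · intro z hz j k
    have hlog : (fun y => Real.log (Real.exp (Φ y - u₁ y) * dens lam y)) =ᶠ[𝓝 z]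
        fun y => (Φ y + - u₁ y) + (Real.log (‖lam 0 y‖ ^ 2) + Real.log (tau lam y).im) := by
      filter_upwards [ho.mem_nhds hz] with y hy
      obtain ⟨h0, h1, h2⟩ := T1 y (h23 hy)
      have n0 := norm_pos_iff.2 h0
      have p := hD0 y (h23 hy)
      rw [Real.log_mul (Real.exp_pos _).ne' p.ne', Real.log_exp]
      unfold dens
      rw [h2, Real.log_mul (by positivity) h1.ne']
      ring
    rw [LM_congr hlog]
    have him : ∀ x ∈ Bd c 2, 0 < (tau lam x).im := fun x hx => (T1 x (h23 hx)).2.1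
    have hne0 : ∀ x ∈ Bd c 2, lam 0 x ≠ 0 := fun x hx => (T1 x (h23 hx)).1
    have s1 := log_smooth ho hlam0 hne0
    have s2 := log_im_smooth ho hτ him
    rw [LM_add ho (hΦ.add hu1.neg) (s1.add s2) hz, LM_add ho hΦ hu1.neg hz, LM_add ho s1 s2 hz,
      LM_neg ho hu1 hz, LM_zero_of_lev ho hu1 hz (hu2 z hz), log_LM ho hlam0 hne0 hz,
      LM_log_im ho hτ him hz]
    simp
    ring

end Pool.Agent.Helper48.SP
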