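import Pool.Agent.Helper10.SP.GoalsI

/-! # Germs of arrows of an étale relation over the base; cocycles from functions of germs -/

open Complex Metric Set Filter Topology MeasureTheory
open scoped ContDiff ComplexConjugate ComplexOrder Manifold

namespace Pool.Agent.Helper48.SP

open Pool.Agent.Helper95.Lin Pool.Agent.Helper16.Abund Pool.Agent.Helper92.Orb
open Pool.Agent.Helper10.SP

universe u v

lemma base_pt {b : ℕ} (z : Cn b) (w : ℂ) : base (pt z w) = z := by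
  funext i
  simp [base, pt]

lemma lc_pt {b : ℕ} (z : Cn b) (w : ℂ) : lc (pt z w) = w := by
  simp [lc, pt]

lemma pt_base_lc {b : ℕ} (x : Cn (b + 1)) : pt (base x) (lc x) = x := by
  funext i
  refine Fin.addCases (fun i => ?_) (fun i => ?_) i
  · simp [base, pt]
  · fin_cases i
    simp [lc, pt]

lemma continuous_base {b : ℕ} : Continuous (base : Cn (b + 1) → Cn b) :=
  continuous_pi fun i => continuous_apply (Fin.castAdd 1 i)

lemma continuous_lc {b : ℕ} : Continuous (lc : Cn (b + 1) → ℂ) :=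
  continuous_apply _

lemma continuous_pt {b : ℕ} : Continuous (fun p : Cn b × ℂ => pt p.1 p.2) := by
  refine continuous_pi fun i => ?_
  refine Fin.addCases (fun i => ?_) (fun i => ?_) i
  · simp only [pt, Fin.append_left]
    exact (continuous_apply i).comp continuous_fst
  · simpa [pt] using continuous_snd

/-- The action of `t` on `ℂᵇ × ℂ`. -/
noncomputable def act {b : ℕ} (t : Tri b) (x : Cn (b + 1)) : Cn (b + 1) :=
  pt (t.g (base x)) (t.a (base x) * lc x + t.β (base x))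

/-- `t` on `U` is a germ of maps of the arrow `(γ, x, y)`. -/
structure Germ {b N : ℕ} {G : Type u} (c : Fin N → Cn b) (Rel : G → Cn (b + 1) → Cn (b + 1) → Prop)
    (P : Set (Cn b) → Tri b → Prop) (γ : G) (x y : Cn (b + 1)) (U : Set (Cn b)) (t : Tri b) :
    Prop where
  p : P U t
  mem : base x ∈ U
  sub : U ⊆ Bd c 2
  maps : MapsTo t.g U (Bd c 2)
  eq : y = act t x
  rel : ∀ z ∈ U, ∀ w, Rel γ (pt z w) (pt (t.g z) (t.a z * w + t.β z))

section

variable {b N : ℕ} {G : Type u} [Group G] {c : Fin N → Cn b} {R : ℝ}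
  {Rel : G → Cn (b + 1) → Cn (b + 1) → Prop} {P : Set (Cn b) → Tri b → Prop} {Φ : Cn b → ℝ}
  {C : ℝ} {H : Cn (b + 1) → Matrix (Fin (b + 1)) (Fin (b + 1)) ℂ}

lemma germ_exists (hF : FEt c R Rel P Φ C H) {γ : G} {x y : Cn (b + 1)} (h : Rel γ x y) :
    ∃ U t, Germ c Rel P γ x y U t := by
  obtain ⟨U, t, h1, h2, h3, h4, h5, h6⟩ := hF.toP γ x y h
  exact ⟨U, t, h1, h2, h3, h4, h5, h6⟩

lemma act_continuousAt (hF : FEt c R Rel P Φ C H) {U : Set (Cn b)} {t : Tri b} (hP : P U t)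
    {x : Cn (b + 1)} (hx : base x ∈ U) : ContinuousAt (act t) x := by
  obtain ⟨hU, -, hg, ha, hβ, -⟩ := hF.fol.holo U t hP
  have hn : U ∈ 𝓝 (base x) := hU.mem_nhds hx
  have hb : ContinuousAt (base : Cn (b + 1) → Cn b) x := continuous_base.continuousAt
  have cg : ContinuousAt (fun x : Cn (b + 1) => t.g (base x)) x :=
    ContinuousAt.comp (f := (base : Cn (b + 1) → Cn b)) (hg.continuousOn.continuousAt hn) hb
  have ca : ContinuousAt (fun x : Cn (b + 1) => t.a (base x)) x :=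
    ContinuousAt.comp (f := (base : Cn (b + 1) → Cn b)) (ha.continuousOn.continuousAt hn) hb
  have cβ : ContinuousAt (fun x : Cn (b + 1) => t.β (base x)) x :=
    ContinuousAt.comp (f := (base : Cn (b + 1) → Cn b)) (hβ.continuousOn.continuousAt hn) hb
  have cl : ContinuousAt (fun x : Cn (b + 1) => lc x) x := continuous_lc.continuousAt
  have := cg.prodMk ((ca.mul cl).add cβ)
  exact ContinuousAt.comp (g := fun p : Cn b × ℂ => pt p.1 p.2)
    (f := fun x : Cn (b + 1) => (t.g (base x), t.a (base x) * lc x + t.β (base x)))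
    continuous_pt.continuousAt this

omit [Group G] in
lemma Germ.rel' {γ : G} {x y : Cn (b + 1)} {U : Set (Cn b)} {t : Tri b}
    (h : Germ c Rel P γ x y U t) {x' : Cn (b + 1)} (hx : base x' ∈ U) : Rel γ x' (act t x') := by
  have := h.rel (base x') hx (lc x')
  rwa [pt_base_lc] at this

lemma Germ.loc (hF : FEt c R Rel P Φ C H) {γ : G} {x y : Cn (b + 1)} {U : Set (Cn b)} {t : Tri b}
    (h : Germ c Rel P γ x y U t) :
    ∃ V ∈ 𝓝 x, ∃ W ∈ 𝓝 y, ∀ x' ∈ V, ∀ y' ∈ W, Rel γ x' y' → base x' ∈ U ∧ y' = act t x' := by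
  have hR : Rel γ x y := by
    have := h.rel' h.mem
    rwa [← h.eq] at this
  obtain ⟨τ, U₁, W₁, hU₁, hW₁, hx, hy, -, -, -, -, -, -, hiff⟩ := hF.ket.et.loc γ x y hR
  have hc : ContinuousAt (act t) x := act_continuousAt hF h.p h.mem
  have hUo : IsOpen U := (hF.fol.holo U t h.p).1
  have h1 : ∀ᶠ x' in 𝓝 x, act t x' ∈ W₁ := hc.eventually (by
    rw [← h.eq]
    exact hW₁.mem_nhds hy)
  have h2 : ∀ᶠ x' in 𝓝 x, base x' ∈ U :=
    continuous_base.continuousAt.eventually (hUo.mem_nhds h.mem)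
  have h3 : ∀ᶠ x' in 𝓝 x, x' ∈ U₁ := hU₁.mem_nhds hx
  refine ⟨_, h1.and (h2.and h3), W₁, hW₁.mem_nhds hy, ?_⟩
  rintro x' ⟨k1, k2, k3⟩ y' hy' hR'
  refine ⟨k2, ?_⟩
  rw [(hiff x' k3 y' hy').1 hR', ← (hiff x' k3 _ k1).1 (h.rel' k2)]

lemma Germ.local (hF : FEt c R Rel P Φ C H) {γ : G} {x y : Cn (b + 1)} {U : Set (Cn b)}
    {t : Tri b} (h : Germ c Rel P γ x y U t) :
    ∃ V ∈ 𝓝 x, ∃ W ∈ 𝓝 y, ∀ x' ∈ V, ∀ y' ∈ W, Rel γ x' y' → Germ c Rel P γ x' y' U t := by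
  obtain ⟨V, hV, W, hW, hVW⟩ := h.loc hF
  refine ⟨V, hV, W, hW, fun x' hx' y' hy' hR => ?_⟩
  obtain ⟨h1, h2⟩ := hVW x' hx' y' hy' hR
  exact ⟨h.p, h1, h.sub, h.maps, h2, h.rel⟩

lemma Germ.unique (hF : FEt c R Rel P Φ C H) {γ : G} {x y : Cn (b + 1)} {U U' : Set (Cn b)}
    {t t' : Tri b} (h : Germ c Rel P γ x y U t) (h' : Germ c Rel P γ x y U' t') :
    ∀ᶠ z in 𝓝 (base x), t.g z = t'.g z ∧ t.a z = t'.a z ∧ t.β z = t'.β z := by
  obtain ⟨V, hV, W, hW, hVW⟩ := h.loc hF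
  have hc : ContinuousAt (act t') x := act_continuousAt hF h'.p h'.mem
  have hUo : IsOpen U' := (hF.fol.holo U' t' h'.p).1
  have h1 : ∀ᶠ x' in 𝓝 x, act t' x' ∈ W := hc.eventually (by
    rw [← h'.eq]
    exact hW)
  have h2 : ∀ᶠ x' in 𝓝 x, base x' ∈ U' :=
    continuous_base.continuousAt.eventually (hUo.mem_nhds h'.mem)
  have h4 : ∀ᶠ x' in 𝓝 x, act t x' = act t' x' := by
    filter_upwards [h1, h2, hV] with x' k1 k2 k3
    exact (hVW x' k3 _ k1 (h'.rel' k2)).2.symm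
  have h5 : ∀ᶠ p : Cn b × ℂ in 𝓝 (base x, lc x), act t (pt p.1 p.2) = act t' (pt p.1 p.2) := by
    have : ContinuousAt (fun p : Cn b × ℂ => pt p.1 p.2) (base x, lc x) :=
      continuous_pt.continuousAt
    refine this.eventually (p := fun y => act t y = act t' y) ?_
    change ∀ᶠ y in 𝓝 (pt (base x) (lc x)), _
    rw [pt_base_lc]
    exact h4
  rw [nhds_prod_eq] at h5
  filter_upwards [h5.curry] with z hz
  have e : ∀ w : ℂ, act t (pt z w) = act t' (pt z w) →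
      t.g z = t'.g z ∧ t.a z * w + t.β z = t'.a z * w + t'.β z := by
    intro w hw
    unfold act at hw
    rw [base_pt, lc_pt] at hw
    have e1 := congrArg base hw
    have e2 := congrArg lc hw
    rw [base_pt, base_pt] at e1
    rw [lc_pt, lc_pt] at e2
    exact ⟨e1, e2⟩
  obtain ⟨g1, l1⟩ := e _ hz.self_of_nhds
  obtain ⟨w, hw, hne⟩ : ∃ w : ℂ, act t (pt z w) = act t' (pt z w) ∧ w ≠ lc x := by
    have h6 : ∀ᶠ w in 𝓝[≠] (lc x), act t (pt z w) = act t' (pt z w) :=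
      hz.filter_mono nhdsWithin_le_nhds
    have h7 : ∀ᶠ w in 𝓝[≠] (lc x), w ≠ lc x := eventually_mem_nhdsWithin
    exact (h6.and h7).exists
  obtain ⟨-, l2⟩ := e _ hw
  have ha : t.a z = t'.a z := by
    have h8 : (t.a z - t'.a z) * (w - lc x) = 0 := by linear_combination l2 - l1
    rcases mul_eq_zero.1 h8 with h9 | h9
    · exact sub_eq_zero.1 h9
    · exact absurd (sub_eq_zero.1 h9) hne
  refine ⟨g1, ha, ?_⟩
  rw [ha] at l1
  exact add_left_cancel l1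

lemma act_comp (t s : Tri b) (x : Cn (b + 1)) : act (s.comp t) x = act s (act t x) := by
  unfold act
  rw [base_pt, lc_pt]
  simp only [Tri.comp]
  congr 1
  ring

lemma Germ.comp (hF : FEt c R Rel P Φ C H) {γ γ' : G} {x y z : Cn (b + 1)} {U U' : Set (Cn b)}
    {t t' : Tri b} (h : Germ c Rel P γ x y U t) (h' : Germ c Rel P γ' y z U' t') :
    ∃ U'', Germ c Rel P (γ' * γ) x z U'' (t'.comp t) := by
  obtain ⟨hU, -, hg, -, -, -⟩ := hF.fol.holo U t h.p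
  have hU' : IsOpen U' := (hF.fol.holo U' t' h'.p).1
  have hy : base y = t.g (base x) := by
    rw [h.eq, act, base_pt]
  have hopen : IsOpen (U ∩ t.g ⁻¹' U') := hg.continuousOn.isOpen_inter_preimage hU hU'
  refine ⟨U ∩ t.g ⁻¹' U', ?_, ⟨h.mem, ?_⟩, fun w hw => h.sub hw.1, fun w hw => h'.maps hw.2, ?_, ?_⟩
  · exact hF.fol.comp U' U _ t' t h'.p h.p hopen inter_subset_left fun w hw => hw.2
  · change t.g (base x) ∈ U'
    rw [← hy]
    exact h'.mem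
  · rw [h'.eq, h.eq, act_comp]
  · intro w hw v
    have h1 := h.rel w hw.1 v
    have h2 := h'.rel (t.g w) hw.2 (t.a w * v + t.β w)
    have h3 := hF.ket.et.mul γ γ' _ _ _ h1 h2
    have e : (t'.comp t).a w * v + (t'.comp t).β w =
        t'.a (t.g w) * (t.a w * v + t.β w) + t'.β (t.g w) := by
      simp only [Tri.comp]
      ring
    rw [e]
    exact h3

/-- A cocycle from a function of germs. -/
theorem coc_germ (hF : FEt c R Rel P Φ C H) (F : Tri b → Cn b → ℝ)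
    (hcongr : ∀ t t' z, (∀ᶠ z' in 𝓝 z, t.g z' = t'.g z' ∧ t.a z' = t'.a z' ∧ t.β z' = t'.β z') →
      F t z = F t' z)
    (hbdd : ∃ B : ℝ, ∀ U t, P U t → ∀ z ∈ U, z ∈ Bd c 2 → t.g z ∈ Bd c 2 → |F t z| ≤ B)
    (hmul : ∀ U t U' s, P U t → P U' s → ∀ z ∈ U, z ∈ Bd c 2 → t.g z ∈ U' → t.g z ∈ Bd c 2 →
      s.g (t.g z) ∈ Bd c 2 → F (s.comp t) z = F t z + F s (t.g z))
    (hloc : ∀ U t, P U t → ∀ z ∈ U, z ∈ Bd c 2 → t.g z ∈ Bd c 2 → ∀ᶠ z' in 𝓝 z,
      F t z' = F t z) :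
    ∃ cc, Coc Rel cc ∧ ∀ γ x y U t, Germ c Rel P γ x y U t → cc γ x y = F t (base x) := by
  classical
  have hval : ∀ γ x y, ∃ v : ℝ, ∀ U t, Germ c Rel P γ x y U t → v = F t (base x) := by
    intro γ x y
    by_cases h : ∃ U t, Germ c Rel P γ x y U t
    · obtain ⟨U, t, ht⟩ := h
      exact ⟨F t (base x), fun U' t' ht' => hcongr _ _ _ (ht.unique hF ht')⟩
    · exact ⟨0, fun U t ht => absurd ⟨U, t, ht⟩ h⟩
  choose cc hcc using hval
  refine ⟨cc, ⟨?_, ?_, ?_⟩, fun γ x y U t h => hcc γ x y U t h⟩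
  · obtain ⟨B, hB⟩ := hbdd
    refine ⟨B, fun γ x y hR => ?_⟩
    obtain ⟨U, t, ht⟩ := germ_exists hF hR
    rw [hcc γ x y U t ht]
    exact hB U t ht.p _ ht.mem (ht.sub ht.mem) (ht.maps ht.mem)
  · intro γ γ' x y z h1 h2
    obtain ⟨U, t, ht⟩ := germ_exists hF h1
    obtain ⟨U', s, hs⟩ := germ_exists hF h2
    obtain ⟨U'', hts⟩ := ht.comp hF hs
    have hy : base y = t.g (base x) := by
      rw [ht.eq, act, base_pt]
    rw [hcc _ _ _ _ _ ht, hcc _ _ _ _ _ hs, hcc _ _ _ _ _ hts, hy]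
    have m1 : t.g (base x) ∈ U' := hy ▸ hs.mem
    exact hmul U t U' s ht.p hs.p _ ht.mem (ht.sub ht.mem) m1 (ht.maps ht.mem)
      (hs.maps m1)
  · intro γ x y hR
    obtain ⟨U, t, ht⟩ := germ_exists hF hR
    obtain ⟨V, hV, W, hW, hVW⟩ := ht.local hF
    have h1 : ∀ᶠ x' in 𝓝 x, F t (base x') = F t (base x) :=
      continuous_base.continuousAt.eventually
        (hloc U t ht.p _ ht.mem (ht.sub ht.mem) (ht.maps ht.mem))
    refine ⟨_, h1.and hV, W, hW, ?_⟩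
    rintro x' ⟨k1, k2⟩ y' hy' hR'
    rw [hcc _ _ _ _ _ (hVW x' k2 y' hy' hR'), hcc _ _ _ _ _ ht, k1]

/-- Functions of germs which are bounded locally constant cocycles are coboundaries of
pluriharmonic functions. -/
theorem hodc_germ (hH : S_HODC.{u}) (hF : FEt c R Rel P Φ C H) (F : Tri b → Cn b → ℝ)
    (hcongr : ∀ t t' z, (∀ᶠ z' in 𝓝 z, t.g z' = t'.g z' ∧ t.a z' = t'.a z' ∧ t.β z' = t'.β z') →
      F t z = F t' z)
    (hbdd : ∃ B : ℝ, ∀ U t, P U t → ∀ z ∈ U, z ∈ Bd c 2 → t.g z ∈ Bd c 2 → |F t z| ≤ B)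
    (hmul : ∀ U t U' s, P U t → P U' s → ∀ z ∈ U, z ∈ Bd c 2 → t.g z ∈ U' → t.g z ∈ Bd c 2 →
      s.g (t.g z) ∈ Bd c 2 → F (s.comp t) z = F t z + F s (t.g z))
    (hloc : ∀ U t, P U t → ∀ z ∈ U, z ∈ Bd c 2 → t.g z ∈ Bd c 2 → ∀ᶠ z' in 𝓝 z,
      F t z' = F t z) :
    ∃ u : Cn b → ℝ, ContDiffOn ℝ ∞ u (Bd c 2) ∧ (∀ z ∈ Bd c 2, ∀ e, lev u z e = 0) ∧
      ∀ U t, PB c P U t → ∀ z ∈ U, u (t.g z) - u z = F t z := by
  obtain ⟨cc, hcc, hval⟩ := coc_germ hF F hcongr hbdd hmul hloc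
  obtain ⟨u, hu1, hu2, hu3⟩ := hH c R Rel P Φ C H hF cc hcc
  refine ⟨u, hu1, hu2, fun U t hPB z hz => ?_⟩
  obtain ⟨hP, hsub, hmaps⟩ := hPB
  obtain ⟨γ, hγ⟩ := hF.ofP U t hP hsub hmaps
  have hg : Germ c Rel P γ (pt z 0) (act t (pt z 0)) U t :=
    ⟨hP, by rw [base_pt]; exact hz, hsub, hmaps, rfl, hγ⟩
  have hR : Rel γ (pt z 0) (act t (pt z 0)) := hg.rel' (by rw [base_pt]; exact hz)
  have h1 := hu3 γ _ _ hR
  rw [hval _ _ _ _ _ hg, base_pt, act, base_pt, base_pt] at h1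
  exact h1

end

end Pool.Agent.Helper48.SP
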